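import Mathlib

/-!
The analytic core for the power mean of exponent `-2` of the distances from a zero to the critical
points: the function `F s = ∏ (1 - s u_k)`.
-/

set_option autoImplicit false

namespace Pool.Agent.TH298.PM

open MeasureTheory Set

variable {m : ℕ}

theorem one_le (t : ℝ) (z : ℂ) :
    ‖1 - (t : ℂ) * z‖ ≤ Real.exp (-t * z.re + t ^ 2 * ‖z‖ ^ 2 / 2) := by
  have h1 : ‖1 - (t : ℂ) * z‖ ^ 2 = 1 + 2 * (-t * z.re + t ^ 2 * ‖z‖ ^ 2 / 2) := by
    rw [← Complex.normSq_eq_norm_sq, ← Complex.normSq_eq_norm_sq, Complex.normSq_apply,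
      Complex.normSq_apply]
    simp
    ring
  have h2 : ‖1 - (t : ℂ) * z‖ ^ 2 ≤ Real.exp (-t * z.re + t ^ 2 * ‖z‖ ^ 2 / 2) ^ 2 := by
    rw [h1, ← Real.exp_nat_mul]
    push_cast
    have := Real.add_one_le_exp (2 * (-t * z.re + t ^ 2 * ‖z‖ ^ 2 / 2))
    linarith
  exact le_of_sq_le_sq h2 (Real.exp_pos _).le

theorem prod_le (s : Finset (Fin m)) (u : Fin m → ℂ) (t : ℝ) :
    ‖∏ k ∈ s, (1 - (t : ℂ) * u k)‖ ≤
      Real.exp (∑ k ∈ s, (-t * (u k).re + t ^ 2 * ‖u k‖ ^ 2 / 2)) := by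
  rw [norm_prod, Real.exp_sum]
  exact Finset.prod_le_prod (fun _ _ => norm_nonneg _) fun k _ => one_le t (u k)

/-- the full product -/
theorem prod_le_all {V R : ℝ} (u : Fin m → ℂ) (hV : ∑ k, ‖u k‖ ^ 2 ≤ V)
    (hR : (∑ k, u k).re = R) (t : ℝ) :
    ‖∏ k, (1 - (t : ℂ) * u k)‖ ≤ Real.exp (-t * R + t ^ 2 * V / 2) := by
  refine (prod_le Finset.univ u t).trans (Real.exp_le_exp.2 ?_)
  rw [Finset.sum_add_distrib, ← Finset.mul_sum, ← Finset.sum_div, ← Finset.mul_sum, ← hR,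
    Complex.re_sum]
  have := mul_le_mul_of_nonneg_left hV (sq_nonneg t)
  linarith

/-- the product without one factor -/
theorem prod_le_erase {V R : ℝ} (u : Fin m → ℂ) (hV : ∑ k, ‖u k‖ ^ 2 ≤ V)
    (hR : (∑ k, u k).re = R) {t : ℝ} (ht : 0 ≤ t) (k : Fin m) :
    ‖∏ l ∈ Finset.univ.erase k, (1 - (t : ℂ) * u l)‖ ≤
      Real.exp (1 / 2) * Real.exp (-t * R + t ^ 2 * V / 2) := by
  refine (prod_le _ u t).trans ?_
  rw [← Real.exp_add]
  refine Real.exp_le_exp.2 ?_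
  have h1 := Finset.sum_erase_add Finset.univ
    (fun l => -t * (u l).re + t ^ 2 * ‖u l‖ ^ 2 / 2) (Finset.mem_univ k)
  have h2 : ∑ l, (-t * (u l).re + t ^ 2 * ‖u l‖ ^ 2 / 2) ≤ -t * R + t ^ 2 * V / 2 := by
    rw [Finset.sum_add_distrib, ← Finset.mul_sum, ← Finset.sum_div, ← Finset.mul_sum, ← hR,
      Complex.re_sum]
    have := mul_le_mul_of_nonneg_left hV (sq_nonneg t)
    linarith
  have h3 : t * (u k).re ≤ t * ‖u k‖ :=
    mul_le_mul_of_nonneg_left ((le_abs_self _).trans (Complex.abs_re_le_norm _)) ht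
  nlinarith [sq_nonneg (t * ‖u k‖ - 1)]

theorem lin_deriv (z : ℂ) (s : ℝ) : HasDerivAt (fun s : ℝ => 1 - (s : ℂ) * z) (-z) s := by
  have h := ((Complex.ofRealCLM.hasDerivAt (x := s)).mul_const z).const_sub 1
  simpa using h

theorem F_deriv (u : Fin m → ℂ) (s : ℝ) :
    HasDerivAt (fun s : ℝ => ∏ k, (1 - (s : ℂ) * u k))
      (-∑ k, u k * ∏ l ∈ Finset.univ.erase k, (1 - (s : ℂ) * u l)) s := by
  have h := HasDerivAt.fun_finsetProd (u := Finset.univ) (f := fun k (s : ℝ) => 1 - (s : ℂ) * u k)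
    (f' := fun k => -u k) (x := s) (fun k _ => lin_deriv (u k) s)
  refine h.congr_deriv ?_
  rw [← Finset.sum_neg_distrib]
  refine Finset.sum_congr rfl fun k _ => ?_
  rw [smul_eq_mul]
  ring

theorem F_id (u : Fin m → ℂ) (s : ℝ) :
    ∑ k, u k * ∏ l ∈ Finset.univ.erase k, (1 - (s : ℂ) * u l) =
      (∑ k, u k) * ∏ k, (1 - (s : ℂ) * u k) +
        s * ∑ k, u k ^ 2 * ∏ l ∈ Finset.univ.erase k, (1 - (s : ℂ) * u l) := by
  rw [Finset.sum_mul, Finset.mul_sum, ← Finset.sum_add_distrib]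
  refine Finset.sum_congr rfl fun k _ => ?_
  rw [← Finset.mul_prod_erase Finset.univ (fun k => 1 - (s : ℂ) * u k) (Finset.mem_univ k)]
  ring

theorem F_int (u : Fin m → ℂ) (a : ℝ) :
    (∑ k, u k) * ∫ s in (0 : ℝ)..a, ∏ k, (1 - (s : ℂ) * u k) =
      1 - ∏ k, (1 - (a : ℂ) * u k) -
        ∫ s in (0 : ℝ)..a, (s : ℂ) * ∑ k, u k ^ 2 *
          ∏ l ∈ Finset.univ.erase k, (1 - (s : ℂ) * u l) := by
  have c1 : Continuous fun s : ℝ => (∑ k, u k) * ∏ k, (1 - (s : ℂ) * u k) := by fun_prop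
  have c2 : Continuous fun s : ℝ => (s : ℂ) * ∑ k, u k ^ 2 *
      ∏ l ∈ Finset.univ.erase k, (1 - (s : ℂ) * u l) := by fun_prop
  have hd : ∀ s ∈ uIcc (0 : ℝ) a, HasDerivAt (fun s : ℝ => -∏ k, (1 - (s : ℂ) * u k))
      ((∑ k, u k) * ∏ k, (1 - (s : ℂ) * u k) + (s : ℂ) * ∑ k, u k ^ 2 *
      ∏ l ∈ Finset.univ.erase k, (1 - (s : ℂ) * u l)) s := by
    intro s _
    refine (F_deriv u s).neg.congr_deriv ?_
    rw [neg_neg, F_id]
  have h := intervalIntegral.integral_eq_sub_of_hasDerivAt hd ((c1.add c2).intervalIntegrable 0 a)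
  rw [intervalIntegral.integral_add (c1.intervalIntegrable _ _) (c2.intervalIntegrable _ _),
    intervalIntegral.integral_const_mul] at h
  simp only [Complex.ofReal_zero, zero_mul, sub_zero, Finset.prod_const_one] at h
  linear_combination h

theorem J_bound (u : Fin m → ℂ) {a R r : ℝ} (hm : 0 < m) (ha : 0 < a) (hr : 0 < r)
    (hV : ∑ k, ‖u k‖ ^ 2 ≤ m) (hR : (∑ k, u k).re = R) (hRr : R = a * m / 2 + r) :
    ‖∫ s in (0 : ℝ)..a, (s : ℂ) * ∑ k, u k ^ 2 *
        ∏ l ∈ Finset.univ.erase k, (1 - (s : ℂ) * u l)‖ ≤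
      Real.exp (1 / 2) * (m / (m * a / 4 + r) ^ 2 + 4 * Real.exp (-(a * r / 2))) := by
  have hm' : (0 : ℝ) < m := by exact_mod_cast hm
  obtain ⟨c, hc⟩ : ∃ c, c = m * a / 4 + r := ⟨_, rfl⟩
  have hc0 : 0 < c := by rw [hc]; positivity
  obtain ⟨Φ, hΦ⟩ : ∃ Φ : ℝ → ℝ, Φ = fun s => Real.exp (1 / 2) *
      (-(m * (s / c + 1 / c ^ 2) * Real.exp (-(c * s))) +
      4 * Real.exp (-(a * r / 2)) * Real.exp (-(m * a / 4) * (a - s))) := ⟨_, rfl⟩
  obtain ⟨g, hg⟩ : ∃ g : ℝ → ℝ, g = fun s => Real.exp (1 / 2) *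
      (m * s * Real.exp (-(c * s)) +
      m * a * Real.exp (-(a * r / 2)) * Real.exp (-(m * a / 4) * (a - s))) := ⟨_, rfl⟩
  have hgc : Continuous g := by rw [hg]; fun_prop
  have hd : ∀ s ∈ uIcc (0 : ℝ) a, HasDerivAt Φ (g s) s := by
    intro s _
    rw [hΦ, hg]
    have h1 : HasDerivAt (fun s : ℝ => s / c + 1 / c ^ 2) (1 / c) s :=
      ((hasDerivAt_id s).div_const c).add_const _
    have h2 : HasDerivAt (fun s : ℝ => Real.exp (-(c * s))) (Real.exp (-(c * s)) * (-c)) s := by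
      have : HasDerivAt (fun s : ℝ => -(c * s)) (-c) s := by
        have h0 := (hasDerivAt_id s).const_mul (-c)
        simpa [neg_mul] using h0
      exact this.exp
    have h3 : HasDerivAt (fun s : ℝ => Real.exp (-(m * a / 4) * (a - s)))
        (Real.exp (-(m * a / 4) * (a - s)) * (m * a / 4)) s := by
      have : HasDerivAt (fun s : ℝ => -(m * a / 4) * (a - s)) (m * a / 4) s := by
        have := ((hasDerivAt_id s).const_sub a).const_mul (-(m * a / 4))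
        refine this.congr_deriv ?_
        ring
      exact this.exp
    have h4 := (((h1.const_mul (m : ℝ)).mul h2).neg.add
      (h3.const_mul (4 * Real.exp (-(a * r / 2))))).const_mul (Real.exp (1 / 2))
    refine h4.congr_deriv ?_
    field_simp
    ring
  have hint := intervalIntegral.integral_eq_sub_of_hasDerivAt hd (hgc.intervalIntegrable 0 a)
  have hpt : ∀ s ∈ Ioc (0 : ℝ) a, ‖(s : ℂ) * ∑ k, u k ^ 2 *
      ∏ l ∈ Finset.univ.erase k, (1 - (s : ℂ) * u l)‖ ≤ g s := by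
    intro s hs
    have hs0 : 0 < s := hs.1
    have e1 : ‖(s : ℂ) * ∑ k, u k ^ 2 * ∏ l ∈ Finset.univ.erase k, (1 - (s : ℂ) * u l)‖ ≤
        s * (m * (Real.exp (1 / 2) * Real.exp (-s * R + s ^ 2 * m / 2))) := by
      rw [norm_mul, Complex.norm_real, Real.norm_eq_abs, abs_of_pos hs0]
      refine mul_le_mul_of_nonneg_left ?_ hs0.le
      refine (norm_sum_le _ _).trans ?_
      have e2 : ∀ k ∈ Finset.univ, ‖u k ^ 2 * ∏ l ∈ Finset.univ.erase k, (1 - (s : ℂ) * u l)‖ ≤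
          ‖u k‖ ^ 2 * (Real.exp (1 / 2) * Real.exp (-s * R + s ^ 2 * m / 2)) := by
        intro k _
        rw [norm_mul, norm_pow]
        exact mul_le_mul_of_nonneg_left (prod_le_erase u hV hR hs0.le k) (sq_nonneg _)
      refine (Finset.sum_le_sum e2).trans ?_
      rw [← Finset.sum_mul]
      exact mul_le_mul_of_nonneg_right hV (by positivity)
    refine e1.trans ?_
    have e3 : (m * s) * Real.exp (-s * R + s ^ 2 * m / 2) ≤ m * s * Real.exp (-(c * s)) +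
        m * a * Real.exp (-(a * r / 2)) * Real.exp (-(m * a / 4) * (a - s)) := by
      rcases le_total s (a / 2) with h | h
      · have e4 : Real.exp (-s * R + s ^ 2 * m / 2) ≤ Real.exp (-(c * s)) := by
          refine Real.exp_le_exp.2 ?_
          rw [hRr, hc]
          have : 0 ≤ (m * s) * (a / 2 - s) := mul_nonneg (by positivity) (by linarith)
          nlinarith
        have e5 : 0 ≤ m * a * Real.exp (-(a * r / 2)) * Real.exp (-(m * a / 4) * (a - s)) := by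
          positivity
        have e6 := mul_le_mul_of_nonneg_left e4 (by positivity : (0 : ℝ) ≤ m * s)
        linarith
      · have e4 : Real.exp (-s * R + s ^ 2 * m / 2) ≤
            Real.exp (-(a * r / 2)) * Real.exp (-(m * a / 4) * (a - s)) := by
          rw [← Real.exp_add]
          refine Real.exp_le_exp.2 ?_
          rw [hRr]
          have h7 : 0 ≤ (s - a / 2) * (m * (a - s)) :=
            mul_nonneg (by linarith) (mul_nonneg hm'.le (by linarith [hs.2]))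
          have h8 : 0 ≤ (s - a / 2) * r := mul_nonneg (by linarith) hr.le
          nlinarith
        have e5 : 0 ≤ m * s * Real.exp (-(c * s)) := by positivity
        have e6 : (m * s) * Real.exp (-s * R + s ^ 2 * m / 2) ≤
            (m * a) * (Real.exp (-(a * r / 2)) * Real.exp (-(m * a / 4) * (a - s))) :=
          mul_le_mul (mul_le_mul_of_nonneg_left hs.2 hm'.le) e4 (Real.exp_pos _).le
            (by positivity)
        linarith
    have e7 := mul_le_mul_of_nonneg_left e3 (Real.exp_pos (1 / 2)).le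
    rw [hg]
    simp only
    linarith
  have h1 := intervalIntegral.norm_integral_le_of_norm_le ha.le
    (Filter.Eventually.of_forall hpt) (hgc.intervalIntegrable (μ := volume) 0 a)
  refine h1.trans ?_
  rw [hint, hΦ, ← hc]
  have k1 : 0 ≤ Real.exp (1 / 2) * (m * (a / c + 1 / c ^ 2) * Real.exp (-(c * a))) := by positivity
  have k2 : 0 ≤ Real.exp (1 / 2) * (4 * Real.exp (-(a * r / 2)) *
      Real.exp (-(m * a / 4) * (a - 0))) := by positivity
  simp only [sub_self, mul_zero, Real.exp_zero, mul_one, neg_zero, zero_div, zero_add]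
  have k3 : (m : ℝ) * (1 / c ^ 2) = m / c ^ 2 := by ring
  rw [k3]
  nlinarith

theorem exp_pow_le {v z : ℝ} (hv : 0 < v) (hv1 : v ≤ 1) {k : ℕ} (hz : (k : ℝ) ≤ z) :
    Real.exp (-(z / v)) ≤ Real.exp (-z) * v ^ k := by
  have h1 : v ^ k = Real.exp (k * Real.log v) := by
    rw [Real.exp_nat_mul, Real.exp_log hv]
  rw [h1, ← Real.exp_add]
  refine Real.exp_le_exp.2 ?_
  have h2 := Real.one_sub_inv_le_log_of_pos hv
  have h3 : 1 ≤ v⁻¹ := (one_le_inv₀ hv).2 hv1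
  have h4 : (k : ℝ) * (1 - v⁻¹) ≤ k * Real.log v := mul_le_mul_of_nonneg_left h2 (Nat.cast_nonneg k)
  have h5 : z * (1 - v⁻¹) ≤ k * (1 - v⁻¹) := by nlinarith
  have h6 : z / v = z * v⁻¹ := div_eq_mul_inv z v
  rw [h6]
  linarith

theorem num {a y : ℝ} (ha0 : 0 < a) (ha1 : a < 1) (hy : 5.5 / (1 - a ^ 2) ≤ y) :
    Real.exp (1 / 2) * (1 / y + 4 * Real.exp (-(y / 2))) + Real.exp (-y) ≤ 1 - a := by
  obtain ⟨v, hv⟩ : ∃ v, v = 1 - a ^ 2 := ⟨_, rfl⟩
  rw [← hv] at hy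
  have hv0 : 0 < v := by rw [hv]; nlinarith
  have hv1 : v ≤ 1 := by rw [hv]; nlinarith [sq_nonneg a]
  have hy0 : 0 < y := lt_of_lt_of_le (by positivity) hy
  have h1 : 1 / y ≤ v / 5.5 := by
    rw [div_le_div_iff₀ hy0 (by norm_num)]
    rw [div_le_iff₀ hv0] at hy
    linarith
  have he1 := Real.exp_one_lt_d9
  have he2 := Real.exp_one_gt_d9
  have h2 : Real.exp (1 / 2) ≤ 1.6488 := by
    refine le_of_sq_le_sq ?_ (by norm_num)
    rw [← Real.exp_nat_mul]
    norm_num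
    linarith
  have h3 : Real.exp (-2.75) ≤ 0.064 := by
    have h4 : (15.63 : ℝ) ≤ Real.exp 2.75 := by
      have h5 : (15.63 : ℝ) ^ 4 ≤ Real.exp 2.75 ^ 4 := by
        rw [← Real.exp_nat_mul]
        have h6 : ((4 : ℕ) : ℝ) * 2.75 = ((11 : ℕ) : ℝ) * 1 := by norm_num
        rw [h6, Real.exp_nat_mul]
        refine le_trans (by norm_num) (pow_le_pow_left₀ (by norm_num) he2.le 11)
      exact le_of_pow_le_pow_left₀ (by norm_num) (Real.exp_pos _).le h5
    rw [Real.exp_neg]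
    refine (inv_anti₀ (by norm_num) h4).trans ?_
    norm_num
  have h4 : Real.exp (-(y / 2)) ≤ 0.064 * v ^ 2 := by
    have h5 : Real.exp (-(y / 2)) ≤ Real.exp (-(2.75 / v)) := by
      refine Real.exp_le_exp.2 (neg_le_neg ?_)
      have : (2.75 : ℝ) / v = 5.5 / v / 2 := by ring
      rw [this]
      linarith
    have h6 := exp_pow_le hv0 hv1 (k := 2) (z := 2.75) (by norm_num)
    exact h5.trans (h6.trans (mul_le_mul_of_nonneg_right h3 (sq_nonneg v)))
  have h5 : Real.exp (-y) ≤ 0.0041 * v := by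
    have h6 : Real.exp (-y) = Real.exp (-(y / 2)) * Real.exp (-(y / 2)) := by
      rw [← Real.exp_add]
      congr 1
      ring
    rw [h6]
    have h7 : Real.exp (-(y / 2)) * Real.exp (-(y / 2)) ≤ (0.064 * v ^ 2) * (0.064 * v ^ 2) :=
      mul_le_mul h4 h4 (Real.exp_pos _).le (by positivity)
    have h8 : v ^ 2 * v ^ 2 ≤ v := by
      have : v ^ 2 ≤ 1 := by nlinarith
      have : v ^ 2 ≤ v := by nlinarith
      nlinarith
    nlinarith
  have h6 : Real.exp (1 / 2) * (1 / y + 4 * Real.exp (-(y / 2))) ≤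
      1.6488 * (v / 5.5 + 4 * (0.064 * v ^ 2)) :=
    mul_le_mul h2 (by linarith) (by positivity) (by norm_num)
  have h7 : 1.6488 * (v / 5.5 + 4 * (0.064 * v ^ 2)) + 0.0041 * v ≤ 1 - a := by
    have hb : v = (1 - a) * (1 + a) := by rw [hv]; ring
    have h8 : 0 ≤ 1 - (0.3039 * (1 + a) + 0.4221 * (1 - a) * (1 + a) ^ 2) := by
      nlinarith [mul_nonneg (sq_nonneg ((1 + a) - 1.494)) (by linarith : 0 ≤ (1 + a) + 0.988)]
    have h9 := mul_nonneg (by linarith : 0 ≤ 1 - a) h8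
    have h10 : (1 - a) * (1 - (0.3039 * (1 + a) + 0.4221 * (1 - a) * (1 + a) ^ 2)) =
        (1 - a) - 0.3039 * v - 0.4221 * v ^ 2 := by
      rw [hb]
      ring
    rw [h10] at h9
    have h11 : 0 ≤ v ^ 2 := sq_nonneg _
    have h12 : 1.6488 * (v / 5.5 + 4 * (0.064 * v ^ 2)) + 0.0041 * v ≤
        0.3039 * v + 0.4221 * v ^ 2 := by
      have e : (1.6488 : ℝ) * (v / 5.5 + 4 * (0.064 * v ^ 2)) + 0.0041 * v =
          (1.6488 / 5.5 + 0.0041) * v + (1.6488 * 4 * 0.064) * v ^ 2 := by ring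
      rw [e]
      have e1 : ((1.6488 : ℝ) / 5.5 + 0.0041) * v ≤ 0.3039 * v :=
        mul_le_mul_of_nonneg_right (by norm_num) hv0.le
      have e2 : ((1.6488 : ℝ) * 4 * 0.064) * v ^ 2 ≤ 0.4221 * v ^ 2 :=
        mul_le_mul_of_nonneg_right (by norm_num) h11
      linarith
    linarith
  linarith

/-- the analytic core -/
theorem core (u : Fin m → ℂ) {a R : ℝ} (hm : 0 < m) (ha0 : 0 < a) (ha1 : a < 1)
    (hV : ∑ k, ‖u k‖ ^ 2 ≤ m) (hR : (∑ k, u k).re = R)
    (hRa : a ^ 2 * m / 2 + 5.5 / (1 - a ^ 2) ≤ a * R) :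
    a ≤ ‖∑ k, u k‖ * ‖∫ s in (0 : ℝ)..a, ∏ k, (1 - (s : ℂ) * u k)‖ := by
  have hm' : (0 : ℝ) < m := by exact_mod_cast hm
  obtain ⟨r, hr⟩ : ∃ r, r = R - a * m / 2 := ⟨_, rfl⟩
  have hRr : R = a * m / 2 + r := by rw [hr]; ring
  have hv0 : 0 < 1 - a ^ 2 := by nlinarith
  have hy : 5.5 / (1 - a ^ 2) ≤ a * r := by
    rw [hr]
    have : a * (R - a * m / 2) = a * R - a ^ 2 * m / 2 := by ring
    rw [this]
    linarith
  have hy0 : 0 < a * r := lt_of_lt_of_le (by positivity) hy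
  have hr0 : 0 < r := by
    by_contra hcon
    exact absurd hy0 (not_lt.2 (mul_nonpos_of_nonneg_of_nonpos ha0.le (not_lt.1 hcon)))
  have hJ := J_bound u hm ha0 hr0 hV hR hRr
  have hN := num ha0 ha1 hy
  have h1 : (m : ℝ) / (m * a / 4 + r) ^ 2 ≤ 1 / (a * r) := by
    rw [div_le_div_iff₀ (by positivity) hy0]
    nlinarith [sq_nonneg (m * a / 4 - r)]
  have h2 : ‖∏ k, (1 - (a : ℂ) * u k)‖ ≤ Real.exp (-(a * r)) := by
    refine (prod_le_all u hV hR a).trans (le_of_eq ?_)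
    congr 1
    rw [hRr]
    ring
  have h3 := F_int u a
  have h4 : ‖(∑ k, u k) * ∫ s in (0 : ℝ)..a, ∏ k, (1 - (s : ℂ) * u k)‖ =
      ‖∑ k, u k‖ * ‖∫ s in (0 : ℝ)..a, ∏ k, (1 - (s : ℂ) * u k)‖ := norm_mul _ _
  rw [← h4, h3]
  have h5 := norm_sub_norm_le (1 - ∏ k, (1 - (a : ℂ) * u k))
    (∫ s in (0 : ℝ)..a, (s : ℂ) * ∑ k, u k ^ 2 *
      ∏ l ∈ Finset.univ.erase k, (1 - (s : ℂ) * u l))
  have h6 := norm_sub_norm_le 1 (∏ k, (1 - (a : ℂ) * u k))
  rw [norm_one] at h6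
  have h7 : Real.exp (1 / 2) * (m / (m * a / 4 + r) ^ 2 + 4 * Real.exp (-(a * r / 2))) ≤
      Real.exp (1 / 2) * (1 / (a * r) + 4 * Real.exp (-(a * r / 2))) :=
    mul_le_mul_of_nonneg_left (by linarith) (Real.exp_pos _).le
  linarith

end Pool.Agent.TH298.PM
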