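import Mathlib
import Pool.Agent.TH298.PM.Core

/-!
The polynomial part: reciprocal distances from a zero to the critical points.
-/

set_option autoImplicit false

namespace Pool.Agent.TH298.PM

open Polynomial MeasureTheory Set

variable {m : ℕ}

/-- the polynomial `(x - a) ∏ (x - z_j)` -/
noncomputable def pol (a : ℝ) (z : Fin m → ℂ) : ℂ[X] := (X - C (a : ℂ)) * ∏ j, (X - C (z j))

theorem pol_eval (a : ℝ) (z : Fin m → ℂ) (x : ℂ) :
    (pol a z).eval x = (x - a) * ∏ j, (x - z j) := by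
  simp [pol, eval_prod]

theorem pol_monic (a : ℝ) (z : Fin m → ℂ) : (pol a z).Monic :=
  (monic_X_sub_C _).mul (monic_prod_of_monic _ _ fun _ _ => monic_X_sub_C _)

theorem pol_deg (a : ℝ) (z : Fin m → ℂ) : (pol a z).natDegree = m + 1 := by
  unfold pol
  rw [(monic_X_sub_C _).natDegree_mul (monic_prod_of_monic _ _ fun j _ => monic_X_sub_C _),
    natDegree_X_sub_C, natDegree_prod_of_monic _ _ fun j _ => monic_X_sub_C _]
  simp
  ring

theorem der_roots (a : ℝ) (z : Fin m → ℂ) : ∃ w : Fin m → ℂ,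
    (derivative (pol a z)).roots = Finset.univ.val.map w ∧
    ∀ x, (derivative (pol a z)).eval x = (m + 1) * ∏ k, (x - w k) := by
  have hs : (derivative (pol a z)).Splits := IsAlgClosed.splits _
  have hc : (derivative (pol a z)).roots.card = m := by
    rw [← hs.natDegree_eq_card_roots, natDegree_derivative, pol_deg]
    rfl
  obtain ⟨L, hL⟩ := Quot.exists_rep (derivative (pol a z)).roots
  have hL' : (L : Multiset ℂ) = (derivative (pol a z)).roots := hL
  have hlen : L.length = m := by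
    rw [← hL', Multiset.coe_card] at hc
    exact hc
  have hw : Finset.univ.val.map (fun k : Fin m => L.get (Fin.cast hlen.symm k)) =
      (derivative (pol a z)).roots := by
    rw [Fin.univ_val_map, ← hL']
    congr 1
    exact List.ext_get (by simp [hlen]) (fun i _ _ => by simp)
  refine ⟨fun k => L.get (Fin.cast hlen.symm k), hw.symm, fun x => ?_⟩
  rw [hs.eval_eq_prod_roots, ← hw, Multiset.map_map, leadingCoeff_derivative, pol_deg,
    (pol_monic a z).leadingCoeff, one_mul]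
  push_cast
  rfl

theorem der_eval (a : ℝ) (z : Fin m → ℂ) (x : ℂ) : (derivative (pol a z)).eval x =
    ∏ j, (x - z j) + (x - a) * ∑ j, ∏ i ∈ Finset.univ.erase j, (x - z i) := by
  unfold pol
  rw [derivative_mul, derivative_prod_finset]
  simp [eval_prod, eval_finsetSum]

theorem re_inv {a : ℝ} (ha1 : a < 1) {v : ℂ} (hv : ‖v‖ ≤ a) :
    1 / (1 + a) ≤ (1 / (1 - v)).re := by
  have ha0 : 0 ≤ a := (norm_nonneg v).trans hv
  have h0 : (1 : ℂ) - v ≠ 0 := by
    intro h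
    have : v = 1 := by linear_combination -h
    rw [this, norm_one] at hv
    linarith
  have h1 : 0 < Complex.normSq (1 - v) := Complex.normSq_pos.2 h0
  have h2 : Complex.normSq v ≤ a ^ 2 := by
    rw [Complex.normSq_eq_norm_sq]
    exact pow_le_pow_left₀ (norm_nonneg _) hv 2
  have h3 : -a ≤ v.re := by
    have := Complex.abs_re_le_norm v
    rw [abs_le] at this
    linarith [this.1]
  rw [one_div (1 - v), Complex.inv_re, div_le_div_iff₀ (by linarith) h1]
  have h4 : Complex.normSq (1 - v) = 1 - 2 * v.re + Complex.normSq v := by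
    rw [Complex.normSq_apply, Complex.normSq_apply]
    simp
    ring
  rw [h4, Complex.sub_re, Complex.one_re]
  nlinarith

theorem star {a : ℝ} (ha0 : 0 < a) (ha1 : a < 1) {z w : Fin m → ℂ} (hz : ∀ j, ‖z j‖ ≤ 1)
    (hw : ∀ x, (derivative (pol a z)).eval x = (m + 1) * ∏ k, (x - w k))
    (hne : ∀ k, (a : ℂ) - w k ≠ 0) :
    (m + 1) * (1 - a) ≤ ∏ k, ‖(1 - a ^ 2) * (1 / ((a : ℂ) - w k)) + a‖ := by
  have haC : (a : ℂ) ≠ 0 := by exact_mod_cast ha0.ne'
  obtain ⟨x, hx⟩ : ∃ x : ℂ, x = 1 / (a : ℂ) := ⟨_, rfl⟩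
  have hax : (a : ℂ) * x = 1 := by rw [hx]; field_simp
  have hm1 : (0 : ℝ) < m + 1 := by positivity
  -- the factors
  have hxz : ∀ j, x - z j ≠ 0 := by
    intro j h
    have : x = z j := by linear_combination h
    have h2 := hz j
    rw [← this, hx, norm_div, norm_one, Complex.norm_real, Real.norm_eq_abs, abs_of_pos ha0,
      div_le_one ha0] at h2
    linarith
  have h1az : ∀ j, (1 : ℂ) - a * z j = a * (x - z j) := by
    intro j
    linear_combination -hax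
  obtain ⟨T, hT⟩ : ∃ T : ℂ, T = 1 / (1 - (a : ℂ) * a) + ∑ j, 1 / (1 - (a : ℂ) * z j) := ⟨_, rfl⟩
  have hTre : (m + 1) / (1 + a) ≤ T.re := by
    have h1 : 1 / (1 + a) ≤ (1 / (1 - (a : ℂ) * a)).re := by
      refine re_inv ha1 ?_
      rw [norm_mul, Complex.norm_real, Real.norm_eq_abs, abs_of_pos ha0]
      nlinarith
    have h2 : ∀ j ∈ Finset.univ, 1 / (1 + a) ≤ (1 / (1 - (a : ℂ) * z j)).re := by
      intro j _
      refine re_inv ha1 ?_
      rw [norm_mul, Complex.norm_real, Real.norm_eq_abs, abs_of_pos ha0]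
      have := hz j
      nlinarith
    have h3 := Finset.sum_le_sum h2
    rw [hT, Complex.add_re, Complex.re_sum]
    rw [Finset.sum_const, Finset.card_univ, Fintype.card_fin, nsmul_eq_mul] at h3
    have : ((m : ℝ) + 1) / (1 + a) = 1 / (1 + a) + m * (1 / (1 + a)) := by ring
    rw [this]
    linarith
  have hTn : (m + 1) / (1 + a) ≤ ‖T‖ := hTre.trans ((le_abs_self _).trans
    (Complex.abs_re_le_norm _))
  have h1a : (1 : ℂ) - a * a ≠ 0 := by
    have : (1 : ℝ) - a * a ≠ 0 := by nlinarith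
    exact_mod_cast this
  have hD : (derivative (pol a z)).eval x = (∏ j, (x - z j)) * ((1 - a * a) * T) := by
    rw [der_eval, hT]
    have h1 : ∀ j ∈ Finset.univ, ∏ i ∈ Finset.univ.erase j, (x - z i) =
        (∏ i, (x - z i)) * (a / (1 - a * z j)) := by
      intro j hj
      rw [← Finset.mul_prod_erase Finset.univ (fun i => x - z i) hj, h1az j]
      have := hxz j
      field_simp
    rw [Finset.sum_congr rfl h1, ← Finset.mul_sum]
    have h2 : ∑ j, (a : ℂ) / (1 - a * z j) = a * ∑ j, 1 / (1 - (a : ℂ) * z j) := by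
      rw [Finset.mul_sum]
      refine Finset.sum_congr rfl fun j _ => ?_
      ring
    rw [h2]
    have h3 : (x - a) * a = 1 - a * a := by linear_combination hax
    have h4 : (1 - (a : ℂ) * a) * (1 / (1 - (a : ℂ) * a)) = 1 := mul_one_div_cancel h1a
    linear_combination (∏ j, (x - z j)) * (∑ j, 1 / (1 - (a : ℂ) * z j)) * h3 -
      (∏ j, (x - z j)) * h4
  -- norms
  have e1 : ‖(derivative (pol a z)).eval x‖ = (m + 1) * ∏ k, ‖x - w k‖ := by
    rw [hw, norm_mul, norm_prod]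
    congr 1
    have : ((m : ℂ) + 1) = ((m + 1 : ℝ) : ℂ) := by push_cast; ring
    rw [this, Complex.norm_real, Real.norm_eq_abs, abs_of_pos hm1]
  have e2 : ‖(derivative (pol a z)).eval x‖ = (∏ j, ‖x - z j‖) * ((1 - a * a) * ‖T‖) := by
    rw [hD, norm_mul, norm_prod, norm_mul]
    congr 2
    have : (1 : ℂ) - a * a = ((1 - a * a : ℝ) : ℂ) := by push_cast; ring
    rw [this, Complex.norm_real, Real.norm_eq_abs, abs_of_pos (by nlinarith)]
  have e3 : ∏ j, ‖(a : ℂ) - z j‖ = (m + 1) * ∏ k, ‖(a : ℂ) - w k‖ := by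
    have h1 := hw a
    rw [der_eval, sub_self, zero_mul, add_zero] at h1
    rw [← norm_prod, h1, norm_mul, norm_prod]
    congr 1
    have : ((m : ℂ) + 1) = ((m + 1 : ℝ) : ℂ) := by push_cast; ring
    rw [this, Complex.norm_real, Real.norm_eq_abs, abs_of_pos hm1]
  have e4 : ∏ j, ‖(a : ℂ) - z j‖ ≤ a ^ m * ∏ j, ‖x - z j‖ := by
    have h1 : ∀ j ∈ Finset.univ, ‖(a : ℂ) - z j‖ ≤ a * ‖x - z j‖ := by
      intro j _
      have h2 : a * ‖x - z j‖ = ‖(1 : ℂ) - a * z j‖ := by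
        rw [h1az j, norm_mul, Complex.norm_real, Real.norm_eq_abs, abs_of_pos ha0]
      rw [h2]
      refine le_of_sq_le_sq ?_ (norm_nonneg _)
      rw [← Complex.normSq_eq_norm_sq, ← Complex.normSq_eq_norm_sq, Complex.normSq_apply,
        Complex.normSq_apply]
      have h3 : (z j).re * (z j).re + (z j).im * (z j).im ≤ 1 := by
        have := hz j
        rw [← Complex.normSq_apply, Complex.normSq_eq_norm_sq]
        exact pow_le_one₀ (norm_nonneg _) this
      simp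
      nlinarith [mul_nonneg (by nlinarith : 0 ≤ 1 - a ^ 2)
        (by linarith : 0 ≤ 1 - ((z j).re * (z j).re + (z j).im * (z j).im))]
    refine (Finset.prod_le_prod (fun _ _ => norm_nonneg _) h1).trans (le_of_eq ?_)
    rw [Finset.prod_mul_distrib, Finset.prod_const, Finset.card_univ, Fintype.card_fin]
  have e5 : ∏ k, ‖(1 - a ^ 2) * (1 / ((a : ℂ) - w k)) + a‖ =
      a ^ m * (∏ k, ‖x - w k‖) * ∏ k, ‖1 / ((a : ℂ) - w k)‖ := by
    have h1 : ∀ k ∈ Finset.univ, ‖(1 - a ^ 2) * (1 / ((a : ℂ) - w k)) + a‖ =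
        a * ‖x - w k‖ * ‖1 / ((a : ℂ) - w k)‖ := by
      intro k _
      have h2 : (1 - (a : ℂ) ^ 2) * (1 / ((a : ℂ) - w k)) + a =
          a * (x - w k) * (1 / ((a : ℂ) - w k)) := by
        have := hne k
        field_simp
        linear_combination -hax
      rw [h2, norm_mul, norm_mul, Complex.norm_real, Real.norm_eq_abs, abs_of_pos ha0]
    rw [Finset.prod_congr rfl h1, Finset.prod_mul_distrib, Finset.prod_mul_distrib,
      Finset.prod_const, Finset.card_univ, Fintype.card_fin]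
  have e6 : (∏ k, ‖(a : ℂ) - w k‖) * ∏ k, ‖1 / ((a : ℂ) - w k)‖ = 1 := by
    rw [← Finset.prod_mul_distrib]
    refine Finset.prod_eq_one fun k _ => ?_
    rw [← norm_mul, mul_one_div_cancel (hne k), norm_one]
  -- conclusion
  have hU : 0 < ∏ k, ‖1 / ((a : ℂ) - w k)‖ :=
    Finset.prod_pos fun k _ => norm_pos_iff.2 (one_div_ne_zero (hne k))
  have f1 : (∏ j, ‖x - z j‖) * ((1 - a) * (m + 1)) ≤ (m + 1) * ∏ k, ‖x - w k‖ := by
    rw [← e1, e2]
    refine mul_le_mul_of_nonneg_left ?_ (Finset.prod_nonneg fun _ _ => norm_nonneg _)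
    have h1 : (1 - a * a) * ((m + 1) / (1 + a)) = (1 - a) * (m + 1) := by
      field_simp
      ring
    rw [← h1]
    exact mul_le_mul_of_nonneg_left hTn (by nlinarith)
  have f2 : (∏ j, ‖x - z j‖) * (1 - a) ≤ ∏ k, ‖x - w k‖ := by
    have : (m + 1) * ((∏ j, ‖x - z j‖) * (1 - a)) ≤ (m + 1) * ∏ k, ‖x - w k‖ := by linarith
    exact le_of_mul_le_mul_left this hm1
  have ham : (0 : ℝ) < a ^ m := pow_pos ha0 m
  have f3 : (1 - a) * ((m + 1) * ∏ k, ‖(a : ℂ) - w k‖) ≤ a ^ m * ∏ k, ‖x - w k‖ := by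
    rw [← e3]
    calc (1 - a) * ∏ j, ‖(a : ℂ) - z j‖ ≤ (1 - a) * (a ^ m * ∏ j, ‖x - z j‖) :=
          mul_le_mul_of_nonneg_left e4 (by linarith)
      _ = a ^ m * ((∏ j, ‖x - z j‖) * (1 - a)) := by ring
      _ ≤ a ^ m * ∏ k, ‖x - w k‖ := mul_le_mul_of_nonneg_left f2 ham.le
  rw [e5]
  calc (m + 1) * (1 - a) = ((1 - a) * ((m + 1) * ∏ k, ‖(a : ℂ) - w k‖)) *
        ∏ k, ‖1 / ((a : ℂ) - w k)‖ := by
        linear_combination -((m + 1) * (1 - a)) * e6
    _ ≤ a ^ m * (∏ k, ‖x - w k‖) * ∏ k, ‖1 / ((a : ℂ) - w k)‖ :=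
        mul_le_mul_of_nonneg_right f3 hU.le

theorem norm_m1 : ‖((m : ℂ) + 1)‖ = (m : ℝ) + 1 := by
  have hm1 : (0 : ℝ) < m + 1 := by positivity
  have : ((m : ℂ) + 1) = ((m + 1 : ℝ) : ℂ) := by push_cast; ring
  rw [this, Complex.norm_real, Real.norm_eq_abs, abs_of_pos hm1]

/-- products and exponentials -/
theorem prod_sq_le {x : Fin m → ℝ} (hx : ∀ k, 0 ≤ x k) :
    (∏ k, x k) ^ 2 ≤ Real.exp (∑ k, (x k ^ 2 - 1)) := by
  rw [← Finset.prod_pow, Real.exp_sum]
  refine Finset.prod_le_prod (fun _ _ => sq_nonneg _) fun k _ => ?_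
  have := Real.add_one_le_exp (x k ^ 2 - 1)
  linarith

theorem der_ge {a : ℝ} {z w : Fin m → ℂ}
    (hw : ∀ x, (derivative (pol a z)).eval x = (m + 1) * ∏ k, (x - w k))
    (hne : ∀ k, (a : ℂ) - w k ≠ 0) (hV : ∑ k, ‖1 / ((a : ℂ) - w k)‖ ^ 2 ≤ m) :
    (m : ℝ) + 1 ≤ ‖(derivative (pol a z)).eval (a : ℂ)‖ := by
  have hm1 : (0 : ℝ) < m + 1 := by positivity
  rw [hw, norm_mul, norm_m1, norm_prod]
  have e6 : (∏ k, ‖(a : ℂ) - w k‖) * ∏ k, ‖1 / ((a : ℂ) - w k)‖ = 1 := by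
    rw [← Finset.prod_mul_distrib]
    refine Finset.prod_eq_one fun k _ => ?_
    rw [← norm_mul, mul_one_div_cancel (hne k), norm_one]
  have h1 := prod_sq_le (x := fun k => ‖1 / ((a : ℂ) - w k)‖) (fun k => norm_nonneg _)
  have h2 : Real.exp (∑ k, (‖1 / ((a : ℂ) - w k)‖ ^ 2 - 1)) ≤ 1 := by
    refine Real.exp_le_one_iff.2 ?_
    rw [Finset.sum_sub_distrib, Finset.sum_const, Finset.card_univ, Fintype.card_fin,
      nsmul_eq_mul, mul_one]
    linarith
  have h3 : ∏ k, ‖1 / ((a : ℂ) - w k)‖ ≤ 1 := by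
    refine le_of_sq_le_sq ?_ zero_le_one
    rw [one_pow]
    exact h1.trans h2
  have h4 : 0 ≤ ∏ k, ‖(a : ℂ) - w k‖ := Finset.prod_nonneg fun _ _ => norm_nonneg _
  have h5 : 1 ≤ ∏ k, ‖(a : ℂ) - w k‖ := by
    rw [← e6]
    have := mul_le_mul_of_nonneg_left h3 h4
    linarith
  have := mul_le_mul_of_nonneg_left h5 hm1.le
  linarith

theorem int_le {a : ℝ} (ha0 : 0 < a) {z w : Fin m → ℂ} (hz : ∀ j, ‖z j‖ ≤ 1)
    (hw : ∀ x, (derivative (pol a z)).eval x = (m + 1) * ∏ k, (x - w k))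
    (hne : ∀ k, (a : ℂ) - w k ≠ 0) (hV : ∑ k, ‖1 / ((a : ℂ) - w k)‖ ^ 2 ≤ m) :
    (m + 1) * ‖∫ s in (0 : ℝ)..a, ∏ k, (1 - (s : ℂ) * (1 / ((a : ℂ) - w k)))‖ ≤ a := by
  have hf : ∀ s : ℝ, (derivative (pol a z)).eval (((a - s : ℝ)) : ℂ) =
      (derivative (pol a z)).eval (a : ℂ) * ∏ k, (1 - (s : ℂ) * (1 / ((a : ℂ) - w k))) := by
    intro s
    rw [hw, hw, mul_assoc, ← Finset.prod_mul_distrib]
    congr 1
    refine Finset.prod_congr rfl fun k _ => ?_
    have := hne k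
    push_cast
    field_simp
    ring
  have hd : ∀ x ∈ uIcc (0 : ℝ) a, HasDerivAt (fun x : ℝ => (pol a z).eval (x : ℂ))
      ((derivative (pol a z)).eval (x : ℂ)) x := fun x _ =>
    ((pol a z).hasDerivAt (x : ℂ)).comp_ofReal
  have hc : Continuous fun x : ℝ => (derivative (pol a z)).eval (x : ℂ) :=
    (derivative (pol a z)).continuous.comp Complex.continuous_ofReal
  have h1 := intervalIntegral.integral_eq_sub_of_hasDerivAt hd (hc.intervalIntegrable 0 a)
  have h2 := intervalIntegral.integral_comp_sub_left (a := 0) (b := a)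
    (fun x : ℝ => (derivative (pol a z)).eval (x : ℂ)) a
  rw [sub_self, sub_zero, h1, intervalIntegral.integral_congr fun s _ => hf s,
    intervalIntegral.integral_const_mul, pol_eval, pol_eval] at h2
  have h3 : ‖((a : ℂ) - a) * ∏ j, ((a : ℂ) - z j) -
      (((0 : ℝ) : ℂ) - a) * ∏ j, (((0 : ℝ) : ℂ) - z j)‖ ≤ a := by
    have h4 : ((a : ℂ) - a) * ∏ j, ((a : ℂ) - z j) -
      (((0 : ℝ) : ℂ) - a) * ∏ j, (((0 : ℝ) : ℂ) - z j) = a * ∏ j, (((0 : ℝ) : ℂ) - z j) := by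
      push_cast
      ring
    rw [h4, norm_mul, Complex.norm_real, Real.norm_eq_abs, abs_of_pos ha0, norm_prod]
    have h5 : ∏ j, ‖((0 : ℝ) : ℂ) - z j‖ ≤ 1 := by
      refine Finset.prod_le_one (fun _ _ => norm_nonneg _) fun j _ => ?_
      rw [Complex.ofReal_zero, zero_sub, norm_neg]
      exact hz j
    have := mul_le_mul_of_nonneg_left h5 ha0.le
    linarith
  rw [← h2, norm_mul] at h3
  exact (mul_le_mul_of_nonneg_right (der_ge hw hne hV) (norm_nonneg _)).trans h3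

theorem main_w {a : ℝ} (ha0 : 0 < a) (ha : 245 ≤ (m + 1) * (1 - a)) {z w : Fin m → ℂ}
    (hz : ∀ j, ‖z j‖ ≤ 1)
    (hw : ∀ x, (derivative (pol a z)).eval x = (m + 1) * ∏ k, (x - w k))
    (hne : ∀ k, (a : ℂ) - w k ≠ 0) : (m : ℝ) < ∑ k, ‖1 / ((a : ℂ) - w k)‖ ^ 2 := by
  by_contra hcon
  have hV := not_lt.1 hcon
  have hm1 : (0 : ℝ) < m + 1 := by positivity
  have ha1 : a < 1 := by
    by_contra h
    have : (m + 1 : ℝ) * (1 - a) ≤ 0 := mul_nonpos_of_nonneg_of_nonpos hm1.le (by linarith)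
    linarith
  have hm : 0 < m := by
    rcases Nat.eq_zero_or_pos m with h | h
    · rw [h] at ha
      norm_num at ha
      linarith
    · exact h
  obtain ⟨u, hu⟩ : ∃ u : Fin m → ℂ, u = fun k => 1 / ((a : ℂ) - w k) := ⟨_, rfl⟩
  have huk : ∀ k, 1 / ((a : ℂ) - w k) = u k := fun k => by rw [hu]
  have hst := star ha0 ha1 hz hw hne
  have hin := int_le ha0 hz hw hne hV
  simp only [huk] at hst hin hV
  obtain ⟨R, hR⟩ : ∃ R, (∑ k, u k).re = R := ⟨_, rfl⟩
  have hv0 : 0 < 1 - a ^ 2 := by nlinarith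
  -- the lower bound for `R`
  have hRa : a ^ 2 * m / 2 + 5.5 / (1 - a ^ 2) ≤ a * R := by
    have h1 := prod_sq_le (x := fun k => ‖(1 - (a : ℂ) ^ 2) * u k + a‖) (fun k => norm_nonneg _)
    have h2 : ∑ k, (‖(1 - (a : ℂ) ^ 2) * u k + a‖ ^ 2 - 1) =
        (1 - a ^ 2) * ((1 - a ^ 2) * ∑ k, ‖u k‖ ^ 2 + 2 * a * R - m) := by
      have h3 : ∀ k, ‖(1 - (a : ℂ) ^ 2) * u k + a‖ ^ 2 - 1 =
          (1 - a ^ 2) ^ 2 * ‖u k‖ ^ 2 + 2 * a * (1 - a ^ 2) * (u k).re + (a ^ 2 - 1) := by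
        intro k
        have e1 : (1 - (a : ℂ) ^ 2) = ((1 - a ^ 2 : ℝ) : ℂ) := by push_cast; ring
        rw [e1, ← Complex.normSq_eq_norm_sq, ← Complex.normSq_eq_norm_sq, Complex.normSq_apply,
          Complex.normSq_apply, Complex.add_re, Complex.add_im, Complex.re_ofReal_mul,
          Complex.im_ofReal_mul, Complex.ofReal_re, Complex.ofReal_im]
        ring
      simp only [h3]
      rw [Finset.sum_add_distrib, Finset.sum_add_distrib, ← Finset.mul_sum, ← Finset.mul_sum,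
        Finset.sum_const, Finset.card_univ, Fintype.card_fin, nsmul_eq_mul, ← hR, Complex.re_sum]
      ring
    rw [h2] at h1
    have h4 : Real.exp 11 ≤ Real.exp
        ((1 - a ^ 2) * ((1 - a ^ 2) * ∑ k, ‖u k‖ ^ 2 + 2 * a * R - m)) := by
      refine le_trans ?_ h1
      have h5 : (245 : ℝ) ≤ ∏ k, ‖(1 - (a : ℂ) ^ 2) * u k + a‖ := ha.trans hst
      have h6 : (245 : ℝ) ^ 2 ≤ (∏ k, ‖(1 - (a : ℂ) ^ 2) * u k + a‖) ^ 2 :=
        pow_le_pow_left₀ (by norm_num) h5 2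
      refine le_trans ?_ h6
      have h7 : Real.exp 11 = Real.exp 1 ^ 11 := by
        rw [← Real.exp_nat_mul]
        norm_num
      rw [h7]
      exact (pow_le_pow_left₀ (Real.exp_pos _).le Real.exp_one_lt_d9.le 11).trans (by norm_num)
    have h8 := Real.exp_le_exp.1 h4
    have h9 : (1 - a ^ 2) * ((1 - a ^ 2) * ∑ k, ‖u k‖ ^ 2 + 2 * a * R - m) ≤
        (1 - a ^ 2) * (2 * a * R - a ^ 2 * m) := by
      refine mul_le_mul_of_nonneg_left ?_ hv0.le
      have := mul_le_mul_of_nonneg_left hV hv0.le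
      linarith
    have h10 : 5.5 / (1 - a ^ 2) ≤ a * R - a ^ 2 * m / 2 := by
      rw [div_le_iff₀ hv0]
      linarith
    linarith
  have hcore := core u hm ha0 ha1 hV hR hRa
  have hS : ‖∑ k, u k‖ ≤ m := by
    refine (norm_sum_le _ _).trans ?_
    have h1 : ∀ k ∈ Finset.univ, ‖u k‖ ≤ (1 + ‖u k‖ ^ 2) / 2 := fun k _ => by
      nlinarith [sq_nonneg (‖u k‖ - 1)]
    refine (Finset.sum_le_sum h1).trans ?_
    rw [← Finset.sum_div, Finset.sum_add_distrib, Finset.sum_const, Finset.card_univ,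
      Fintype.card_fin, nsmul_eq_mul, mul_one]
    linarith
  have h1 : ‖∑ k, u k‖ * ‖∫ s in (0 : ℝ)..a, ∏ k, (1 - (s : ℂ) * u k)‖ ≤
      m * ‖∫ s in (0 : ℝ)..a, ∏ k, (1 - (s : ℂ) * u k)‖ :=
    mul_le_mul_of_nonneg_right hS (norm_nonneg _)
  have hI : 0 < ‖∫ s in (0 : ℝ)..a, ∏ k, (1 - (s : ℂ) * u k)‖ := by
    by_contra h
    have h0 := le_antisymm (not_lt.1 h) (norm_nonneg _)
    rw [h0, mul_zero] at hcore
    linarith
  linarith

theorem main_w0 (hm : 0 < m) {z w : Fin m → ℂ}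
    (hz : ∀ j, ‖z j‖ ≤ 1)
    (hw : ∀ x, (derivative (pol 0 z)).eval x = (m + 1) * ∏ k, (x - w k))
    (hne : ∀ k, ((0 : ℝ) : ℂ) - w k ≠ 0) :
    (m : ℝ) < ∑ k, ‖1 / (((0 : ℝ) : ℂ) - w k)‖ ^ 2 := by
  by_contra hcon
  have h1 := der_ge hw hne (not_lt.1 hcon)
  rw [der_eval, sub_self, zero_mul, add_zero, norm_prod] at h1
  have h5 : ∏ j, ‖((0 : ℝ) : ℂ) - z j‖ ≤ 1 := by
    refine Finset.prod_le_one (fun _ _ => norm_nonneg _) fun j _ => ?_
    rw [Complex.ofReal_zero, zero_sub, norm_neg]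
    exact hz j
  have : (0 : ℝ) < m := by exact_mod_cast hm
  linarith

/-- the result -/
theorem main (m : ℕ) (a : ℝ) (ha0 : 0 ≤ a) (ha : 245 ≤ (m + 1) * (1 - a)) (z : Fin m → ℂ)
    (hz : ∀ j, ‖z j‖ ≤ 1) :
    ((a : ℂ) ∈ (derivative ((X - C (a : ℂ)) * ∏ j, (X - C (z j)))).roots) ∨
      (m : ℝ) < (((derivative ((X - C (a : ℂ)) * ∏ j, (X - C (z j)))).roots).map
          (fun w : ℂ => (‖w - (a : ℂ)‖ ^ 2)⁻¹)).sum := by
  obtain ⟨w, hroots, hw⟩ := der_roots a z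
  by_cases hmem : (a : ℂ) ∈ (derivative (pol a z)).roots
  · exact Or.inl hmem
  right
  have hne : ∀ k, (a : ℂ) - w k ≠ 0 := by
    intro k h
    apply hmem
    rw [hroots, Multiset.mem_map]
    exact ⟨k, Finset.mem_univ_val k, by linear_combination -h⟩
  have hsum : (((derivative (pol a z)).roots).map (fun w : ℂ => (‖w - (a : ℂ)‖ ^ 2)⁻¹)).sum =
      ∑ k, ‖1 / ((a : ℂ) - w k)‖ ^ 2 := by
    rw [hroots, Multiset.map_map]
    refine Finset.sum_congr rfl fun k _ => ?_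
    simp only [Function.comp_apply]
    rw [norm_div, norm_one, norm_sub_rev, div_pow, one_pow, one_div]
  change (m : ℝ) < (((derivative (pol a z)).roots).map (fun w : ℂ => (‖w - (a : ℂ)‖ ^ 2)⁻¹)).sum
  rw [hsum]
  rcases eq_or_lt_of_le ha0 with h | h
  · subst h
    have hm : 0 < m := by
      rcases Nat.eq_zero_or_pos m with h | h
      · rw [h] at ha
        norm_num at ha
      · exact h
    exact main_w0 hm hz hw hne
  · exact main_w h ha hz hw hne

end Pool.Agent.TH298.PM
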